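import Pool.Agent.Lib_helper80.NH.Small
import Pool.Agent.Lib_helper10.GOL.Core3
import Pool.Agent.Lib_helper10.GOL.Pairs
import Pool.Agent.Lib_helper64.NH.N46

set_option autoImplicit false

open Matrix

namespace Pool.Agent.Lib_helper80.NH

open Pool.Agent.Results.MP_c77999_an.StrictMono

/-- the order `N + 2` for a twisted pair of order `N` -/
theorem tw_two (N : ℕ) (hN0 : 0 < N) (h : Pool.Agent.Lib_helper10.GOL.TwPair N) :
    √((N : ℝ) + 1) < r (N + 2) := by
  obtain ⟨ι, i1, i2, H, x, y, g, h', hc, hH, hHH, hx, hy, hgh, h0, h1, ho⟩ := h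
  obtain ⟨M, A, u, k1, k2, k3, k4⟩ :=
    Pool.Agent.Lib_helper10.GOL.core3 N hc hN0 H hH hHH x y hx hy g h' hgh h0 h1 ho
  refine k4.trans_le ?_
  refine Pool.Agent.Lib_helper97.SN.lower (N + 2) ?_ M A k1 k2 u u k3 k3
  rw [Fintype.card_sum, hc, Fintype.card_fin]

/-- Q1 for every order up to 57 -/
theorem all57 : ∀ n : ℕ, 1 ≤ n → n ≤ 57 → √((n : ℝ) - 1) < r n := by
  refine small57 ?_ ?_ Pool.Agent.Lib_helper64.NH.order_46
  · have h := tw_two 20 (by norm_num)
      (by simpa using Pool.Agent.Lib_helper10.GOL.twPair_all 0 1 0 (by norm_num))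
    have e : (((20 : ℕ) : ℝ) + 1) = 21 := by norm_num
    rwa [e] at h
  · have h := tw_two 32 (by norm_num)
      (by simpa using Pool.Agent.Lib_helper10.GOL.twPair_all 5 0 0 (by norm_num))
    have e : (((32 : ℕ) : ℝ) + 1) = 33 := by norm_num
    rwa [e] at h

end Pool.Agent.Lib_helper80.NH
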