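import Pool.Agent.Lib_helper58.SN.Final
import Pool.Agent.Lib_helper19.PAL.Paley
import Pool.Agent.Results.MP_c77999_an.ConferenceOrders

set_option autoImplicit false

open Matrix

namespace Pool.Agent.Lib_helper80.NH

open Pool.Agent.Results.MP_c77999_an.StrictMono Pool.Agent.Lib_helper58.SN
open Pool.Agent.Lib_helper19.PAL

theorem had_of {ι : Type*} [Fintype ι] [DecidableEq ι] {N : ℕ} (hc : Fintype.card ι = N)
    {H : Matrix ι ι ℝ} (h : Pool.Agent.Lib_helper58.SN.IsHadamard H) : HadamardOrder N := by
  subst hc
  exact ⟨_, isHadamard_reindex (Fintype.equivFin ι).symm h⟩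

theorem had_one : HadamardOrder 1 := by
  refine ⟨1, ?_, ?_⟩
  · intro a b
    left
    rw [Subsingleton.elim a b, Matrix.one_apply_eq]
  · simp

theorem had_double {N : ℕ} (h : HadamardOrder N) : HadamardOrder (2 * N) := by
  obtain ⟨H, h1, h2⟩ := h
  refine had_of (ι := Fin N ⊕ Fin N) (by simp; ring) (H := Matrix.fromBlocks H H H (-H)) ⟨?_, ?_⟩
  · rintro (a | a) (b | b)
    · simpa using h1 a b
    · simpa using h1 a b
    · simpa using h1 a b
    · rcases h1 a b with h | h
      · right; simp [h]
      · left; simp [h]
  · rw [Matrix.fromBlocks_transpose, Matrix.fromBlocks_multiply]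
    simp only [Matrix.transpose_neg, Matrix.mul_neg, Matrix.neg_mul, neg_neg, h2, add_neg_cancel]
    rw [← Matrix.fromBlocks_one, Matrix.fromBlocks_smul]
    simp only [smul_zero, ← add_smul, Fintype.card_sum, Fintype.card_fin]
    push_cast
    rfl

section paley

variable (F : Type) [Field F] [Fintype F] [DecidableEq F]

/-- the real Paley matrix -/
noncomputable def C : Matrix (Option F) (Option F) ℝ := (P F).map (Int.castRingHom ℝ)

theorem C_mul (hF : ringChar F ≠ 2) :
    C F * (C F)ᵀ = (Fintype.card F : ℝ) • (1 : Matrix (Option F) (Option F) ℝ) := by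
  have h := congrArg (fun M : Matrix (Option F) (Option F) ℤ => M.map (Int.castRingHom ℝ))
    (P_mul (F := F) hF)
  simp only [Matrix.map_mul] at h
  rw [C, ← Matrix.transpose_map, h]
  ext a b
  simp only [Matrix.map_apply, Matrix.smul_apply, Matrix.one_apply, smul_eq_mul]
  split_ifs <;> simp

theorem P_symm (a b : Option F) : P F b a = quadraticChar F (-1) * P F a b := by
  have hn : (-1 : F) ≠ 0 := by simp
  rcases a with _ | a <;> rcases b with _ | b
  · simp [P]
  · simp [P]
  · show (1 : ℤ) = quadraticChar F (-1) * quadraticChar F (-1)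
    rw [← pow_two, quadraticChar_sq_one hn]
  · show quadraticChar F (b - a) = quadraticChar F (-1) * quadraticChar F (a - b)
    rw [← map_mul]
    congr 1
    ring

theorem C_transpose : (C F)ᵀ = ((quadraticChar F (-1) : ℤ) : ℝ) • C F := by
  ext a b
  rw [Matrix.transpose_apply, Matrix.smul_apply, C, Matrix.map_apply, Matrix.map_apply, P_symm F a b]
  simp

theorem C_diag (a : Option F) : C F a a = 0 := by
  rcases a with _ | a <;> simp [C, P]

theorem C_off (a b : Option F) (h : a ≠ b) : C F a b = 1 ∨ C F a b = -1 := by
  have hn : (-1 : F) ≠ 0 := by simp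
  rcases a with _ | a <;> rcases b with _ | b
  · exact absurd rfl h
  · left; simp [C, P]
  · rw [C, Matrix.map_apply]
    show (((quadraticChar F (-1) : ℤ)) : ℝ) = 1 ∨ (((quadraticChar F (-1) : ℤ)) : ℝ) = -1
    rcases char_pm hn with h | h
    · left; rw [h]; norm_num
    · right; rw [h]; norm_num
  · rw [C, Matrix.map_apply]
    have hne : a - b ≠ 0 := sub_ne_zero.2 (fun h' => h (by rw [h']))
    show (((quadraticChar F (a - b) : ℤ)) : ℝ) = 1 ∨ (((quadraticChar F (a - b) : ℤ)) : ℝ) = -1
    rcases char_pm hne with h | h
    · left; rw [h]; norm_num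
    · right; rw [h]; norm_num

end paley

theorem paley_one (p k : ℕ) (hp : p.Prime) (hp2 : p ≠ 2) (hk : 1 ≤ k) (h4 : p ^ k % 4 = 3) :
    HadamardOrder (p ^ k + 1) := by
  classical
  have : Fact p.Prime := ⟨hp⟩
  have : Fintype (GaloisField p k) := Fintype.ofFinite _
  have hcard : Fintype.card (GaloisField p k) = p ^ k := by
    rw [← Nat.card_eq_fintype_card]
    exact GaloisField.card p k (by omega)
  have hchar : ringChar (GaloisField p k) ≠ 2 := by
    rw [ringChar.eq (GaloisField p k) p]
    exact hp2
  have hm : quadraticChar (GaloisField p k) (-1) = -1 := by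
    rw [quadraticChar_neg_one hchar, hcard]
    exact ZMod.χ₄_nat_three_mod_four h4
  have hT : (C (GaloisField p k))ᵀ = -C (GaloisField p k) := by
    rw [C_transpose, hm]
    simp
  have hM := C_mul (GaloisField p k) hchar
  refine had_of (ι := Option (GaloisField p k)) (by rw [Fintype.card_option, hcard])
    (H := C (GaloisField p k) + 1) ⟨?_, ?_⟩
  · intro a b
    by_cases hab : a = b
    · subst hab
      left
      rw [Matrix.add_apply, C_diag, Matrix.one_apply_eq, zero_add]
    · rw [Matrix.add_apply, Matrix.one_apply_ne hab, add_zero]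
      exact C_off _ a b hab
  · rw [Matrix.transpose_add, Matrix.transpose_one, add_mul, mul_add, hM, mul_one, one_mul, hT,
      Fintype.card_option, hcard]
    push_cast
    rw [add_smul, one_smul]
    abel

theorem paley_two (p k : ℕ) (hp : p.Prime) (hp2 : p ≠ 2) (hk : 1 ≤ k) (h4 : p ^ k % 4 = 1) :
    HadamardOrder (2 * (p ^ k + 1)) := by
  classical
  have : Fact p.Prime := ⟨hp⟩
  have : Fintype (GaloisField p k) := Fintype.ofFinite _
  have hcard : Fintype.card (GaloisField p k) = p ^ k := by
    rw [← Nat.card_eq_fintype_card]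
    exact GaloisField.card p k (by omega)
  have hchar : ringChar (GaloisField p k) ≠ 2 := by
    rw [ringChar.eq (GaloisField p k) p]
    exact hp2
  have hm : quadraticChar (GaloisField p k) (-1) = 1 := by
    rw [quadraticChar_neg_one hchar, hcard]
    exact ZMod.χ₄_nat_one_mod_four h4
  have hT : (C (GaloisField p k))ᵀ = C (GaloisField p k) := by
    rw [C_transpose, hm]
    simp
  have hM := C_mul (GaloisField p k) hchar
  rw [hT] at hM
  have hoff := C_off (GaloisField p k)
  have hdiag := C_diag (GaloisField p k)
  generalize C (GaloisField p k) = D at hT hM hoff hdiag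
  refine had_of (ι := Option (GaloisField p k) ⊕ Option (GaloisField p k))
    (by rw [Fintype.card_sum, Fintype.card_option, hcard]; ring)
    (H := Matrix.fromBlocks (D + 1) (D - 1) (D - 1) (-D - 1)) ⟨?_, ?_⟩
  · rintro (a | a) (b | b)
    · rw [Matrix.fromBlocks_apply₁₁, Matrix.add_apply]
      by_cases hab : a = b
      · subst hab; left; rw [hdiag, Matrix.one_apply_eq, zero_add]
      · rw [Matrix.one_apply_ne hab, add_zero]; exact hoff a b hab
    · rw [Matrix.fromBlocks_apply₁₂, Matrix.sub_apply]
      by_cases hab : a = b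
      · subst hab; right; rw [hdiag, Matrix.one_apply_eq, zero_sub]
      · rw [Matrix.one_apply_ne hab, sub_zero]; exact hoff a b hab
    · rw [Matrix.fromBlocks_apply₂₁, Matrix.sub_apply]
      by_cases hab : a = b
      · subst hab; right; rw [hdiag, Matrix.one_apply_eq, zero_sub]
      · rw [Matrix.one_apply_ne hab, sub_zero]; exact hoff a b hab
    · rw [Matrix.fromBlocks_apply₂₂, Matrix.sub_apply, Matrix.neg_apply]
      by_cases hab : a = b
      · subst hab; right; rw [hdiag, Matrix.one_apply_eq, neg_zero, zero_sub]
      · rw [Matrix.one_apply_ne hab, sub_zero]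
        rcases hoff a b hab with h | h
        · right; rw [h]
        · left; rw [h, neg_neg]
  · rw [Matrix.fromBlocks_transpose, Matrix.fromBlocks_multiply]
    simp only [Matrix.transpose_add, Matrix.transpose_sub, Matrix.transpose_neg,
      Matrix.transpose_one, hT]
    have e1 : (D + 1) * (D + 1) + (D - 1) * (D - 1) = (2 * ((p : ℝ) ^ k + 1)) • 1 := by
      have : (D + 1) * (D + 1) + (D - 1) * (D - 1) = (2 : ℝ) • (D * D) + (2 : ℝ) • 1 := by
        rw [two_smul, two_smul]; noncomm_ring
      rw [this, hM, hcard, smul_smul, ← add_smul]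
      push_cast
      congr 1
      ring
    have e2 : (D - 1) * (D - 1) + (-D - 1) * (-D - 1) = (2 * ((p : ℝ) ^ k + 1)) • 1 := by
      rw [← e1]; noncomm_ring
    have e3 : (D + 1) * (D - 1) + (D - 1) * (-D - 1) = 0 := by noncomm_ring
    have e4 : (D - 1) * (D + 1) + (-D - 1) * (D - 1) = 0 := by noncomm_ring
    rw [e1, e2, e3, e4, ← Matrix.fromBlocks_one, Matrix.fromBlocks_smul, smul_zero,
      Fintype.card_sum, Fintype.card_option, hcard]
    push_cast
    congr 2 <;> ring

/-- Q1 for every order up to 45, from the orders 22 and 34. -/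
theorem small (h22 : √(21 : ℝ) < r 22) (h34 : √(33 : ℝ) < r 34) :
    ∀ n : ℕ, 1 ≤ n → n ≤ 45 → √((n : ℝ) - 1) < r n := by
  have H1 := had_one
  have H2 : HadamardOrder 2 := had_double H1
  have H4 : HadamardOrder 4 := had_double H2
  have H8 : HadamardOrder 8 := had_double H4
  have H16 : HadamardOrder 16 := had_double H8
  have H32 : HadamardOrder 32 := had_double H16
  have H12 : HadamardOrder 12 := paley_one 11 1 (by norm_num) (by norm_num) le_rfl (by norm_num)
  have H20 : HadamardOrder 20 := paley_one 19 1 (by norm_num) (by norm_num) le_rfl (by norm_num)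
  have H24 : HadamardOrder 24 := had_double H12
  have H28 : HadamardOrder 28 := paley_one 3 3 (by norm_num) (by norm_num) (by norm_num) (by norm_num)
  have H36 : HadamardOrder 36 := paley_two 17 1 (by norm_num) (by norm_num) le_rfl (by norm_num)
  have H40 : HadamardOrder 40 := had_double H20
  have H44 : HadamardOrder 44 := paley_one 43 1 (by norm_num) (by norm_num) le_rfl (by norm_num)
  have conf : ∀ p k : ℕ, p.Prime → p ≠ 2 → 1 ≤ k →
      √(((p ^ k + 1 : ℕ) : ℝ) - 1) < r (p ^ k + 1) := by
    intro p k hp hp2 hk
    have h := ((Pool.Agent.Results.MP_c77999_an.ConferenceOrders.result).2 p k hp hp2 hk).2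
    have e : (((p ^ k + 1 : ℕ) : ℝ) - 1) = (p : ℝ) ^ k := by push_cast; ring
    rwa [e]
  intro n h1 h2
  interval_cases n
  · exact near 1 1 (by norm_num) (by omega) H1
  · exact near 2 2 (by norm_num) (by omega) H2
  · exact near 3 4 (by norm_num) (by omega) H4
  · exact near 4 4 (by norm_num) (by omega) H4
  · exact near 5 4 (by norm_num) (by omega) H4
  · exact conf 5 1 (by norm_num) (by norm_num) le_rfl
  · exact near 7 8 (by norm_num) (by omega) H8
  · exact near 8 8 (by norm_num) (by omega) H8
  · exact near 9 8 (by norm_num) (by omega) H8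
  · exact conf 3 2 (by norm_num) (by norm_num) (by norm_num)
  · exact near 11 12 (by norm_num) (by omega) H12
  · exact near 12 12 (by norm_num) (by omega) H12
  · exact near 13 12 (by norm_num) (by omega) H12
  · exact conf 13 1 (by norm_num) (by norm_num) le_rfl
  · exact near 15 16 (by norm_num) (by omega) H16
  · exact near 16 16 (by norm_num) (by omega) H16
  · exact near 17 16 (by norm_num) (by omega) H16
  · exact conf 17 1 (by norm_num) (by norm_num) le_rfl
  · exact near 19 20 (by norm_num) (by omega) H20
  · exact near 20 20 (by norm_num) (by omega) H20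
  · exact near 21 20 (by norm_num) (by omega) H20
  · have e : (((22 : ℕ) : ℝ) - 1) = 21 := by norm_num
    rw [e]; exact h22
  · exact near 23 24 (by norm_num) (by omega) H24
  · exact near 24 24 (by norm_num) (by omega) H24
  · exact near 25 24 (by norm_num) (by omega) H24
  · exact conf 5 2 (by norm_num) (by norm_num) (by norm_num)
  · exact near 27 28 (by norm_num) (by omega) H28
  · exact near 28 28 (by norm_num) (by omega) H28
  · exact near 29 28 (by norm_num) (by omega) H28
  · exact conf 29 1 (by norm_num) (by norm_num) le_rfl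
  · exact near 31 32 (by norm_num) (by omega) H32
  · exact near 32 32 (by norm_num) (by omega) H32
  · exact near 33 32 (by norm_num) (by omega) H32
  · have e : (((34 : ℕ) : ℝ) - 1) = 33 := by norm_num
    rw [e]; exact h34
  · exact near 35 36 (by norm_num) (by omega) H36
  · exact near 36 36 (by norm_num) (by omega) H36
  · exact near 37 36 (by norm_num) (by omega) H36
  · exact conf 37 1 (by norm_num) (by norm_num) le_rfl
  · exact near 39 40 (by norm_num) (by omega) H40
  · exact near 40 40 (by norm_num) (by omega) H40
  · exact near 41 40 (by norm_num) (by omega) H40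
  · exact conf 41 1 (by norm_num) (by norm_num) le_rfl
  · exact near 43 44 (by norm_num) (by omega) H44
  · exact near 44 44 (by norm_num) (by omega) H44
  · exact near 45 44 (by norm_num) (by omega) H44

/-- Q1 for every order up to 57, from the orders 22, 34 and 46. -/
theorem small57 (h22 : √(21 : ℝ) < r 22) (h34 : √(33 : ℝ) < r 34) (h46 : √(45 : ℝ) < r 46) :
    ∀ n : ℕ, 1 ≤ n → n ≤ 57 → √((n : ℝ) - 1) < r n := by
  have H12 : HadamardOrder 12 := paley_one 11 1 (by norm_num) (by norm_num) le_rfl (by norm_num)
  have H24 : HadamardOrder 24 := had_double H12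
  have H48 : HadamardOrder 48 := had_double H24
  have H28 : HadamardOrder 28 := paley_one 3 3 (by norm_num) (by norm_num) (by norm_num) (by norm_num)
  have H56 : HadamardOrder 56 := had_double H28
  have H52 : HadamardOrder 52 := paley_two 5 2 (by norm_num) (by norm_num) (by norm_num) (by norm_num)
  have conf : ∀ p k : ℕ, p.Prime → p ≠ 2 → 1 ≤ k →
      √(((p ^ k + 1 : ℕ) : ℝ) - 1) < r (p ^ k + 1) := by
    intro p k hp hp2 hk
    have h := ((Pool.Agent.Results.MP_c77999_an.ConferenceOrders.result).2 p k hp hp2 hk).2
    have e : (((p ^ k + 1 : ℕ) : ℝ) - 1) = (p : ℝ) ^ k := by push_cast; ring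
    rwa [e]
  intro n h1 h2
  rcases Nat.lt_or_ge 45 n with h3 | h3
  · interval_cases n
    · have e : (((46 : ℕ) : ℝ) - 1) = 45 := by norm_num
      rw [e]; exact h46
    · exact near 47 48 (by norm_num) (by omega) H48
    · exact near 48 48 (by norm_num) (by omega) H48
    · exact near 49 48 (by norm_num) (by omega) H48
    · exact conf 7 2 (by norm_num) (by norm_num) (by norm_num)
    · exact near 51 52 (by norm_num) (by omega) H52
    · exact near 52 52 (by norm_num) (by omega) H52
    · exact near 53 52 (by norm_num) (by omega) H52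
    · exact conf 53 1 (by norm_num) (by norm_num) le_rfl
    · exact near 55 56 (by norm_num) (by omega) H56
    · exact near 56 56 (by norm_num) (by omega) H56
    · exact near 57 56 (by norm_num) (by omega) H56
  · exact small h22 h34 n h1 h3

end Pool.Agent.Lib_helper80.NH
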